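import Pool.Agent.Q27.LT.Machine

/-!
# Project LT, job ROUND: every round is done by a fragment
-/

namespace Pool.Agent.Q53.LT.RoundJ

open Pool.Agent.Q27.LT

/-- states of the fragment of a round -/
inductive St (Q Q' : Type) where
  | start : St Q Q'
  | stop : St Q Q'
  | P : St Q Q'
  | R0 : St Q Q'
  | S : St Q Q'
  | L : Q → St Q Q'
  | R : Q' → St Q Q'

theorem St.finite (Q Q' : Type) [Finite Q] [Finite Q'] : Finite (St Q Q') := by
  have : Function.Surjective (fun z : Fin 5 ⊕ Q ⊕ Q' => (match z with
    | Sum.inl 0 => St.start
    | Sum.inl 1 => St.stop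
    | Sum.inl 2 => St.P
    | Sum.inl 3 => St.R0
    | Sum.inl 4 => St.S
    | Sum.inr (Sum.inl q) => St.L q
    | Sum.inr (Sum.inr q) => St.R q : St Q Q')) := by
    intro s
    cases s with
    | start => exact ⟨Sum.inl 0, rfl⟩
    | stop => exact ⟨Sum.inl 1, rfl⟩
    | P => exact ⟨Sum.inl 2, rfl⟩
    | R0 => exact ⟨Sum.inl 3, rfl⟩
    | S => exact ⟨Sum.inl 4, rfl⟩
    | L q => exact ⟨Sum.inr (Sum.inl q), rfl⟩
    | R q => exact ⟨Sum.inr (Sum.inr q), rfl⟩
  exact Finite.of_surjective _ this

/-- what to do at the right end -/
def atEnd {W Q Q' : Type} (q0' : Q') : Act W → St Q Q' × Option (Option W) × Bool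
  | .keep => (.R q0', some none, false)
  | .push a => (.R0, some (some a), true)
  | .pop => (.P, some none, false)

/-- the transitions of the fragment of a round -/
def delta {W : Type} (R : Round W) : St R.Q R.Q' → Option (Option W) →
    Option (St R.Q R.Q' × Option (Option W) × Bool)
  | .start, none => some (.L R.q0, none, true)
  | .start, some _ => none
  | .stop, _ => none
  | .L q, some (some w) => some (.L (R.f q w), some (some (R.o q w)), true)
  | .L q, some none => some (atEnd R.q0' (R.t q))
  | .L _, none => none
  | .R0, some none => some (.R R.q0', some none, false)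
  | .R0, _ => none
  | .P, some _ => some (.R R.q0', some none, false)
  | .P, none => some (.S, none, true)
  | .R q, some (some w) => some (.R (R.f' q w), some (some (R.o' q w)), false)
  | .R _, some none => none
  | .R _, none => some (.S, none, true)
  | .S, some z => some (.stop, some z, false)
  | .S, none => none

/-- the fragment of a round -/
def frag {W : Type} (R : Round W) : Frag W where
  Q := St R.Q R.Q'
  finQ := by
    have := R.finQ
    have := R.finQ'
    exact St.finite _ _
  start := .start
  stop := .stop
  δ := delta R
  keep := by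
    intro q q' x d h
    cases q <;> simp [delta] at h <;> simp [← h.2.1, ← h.2.2]
  only := by
    intro q s q' x d h hx
    subst hx
    rcases s with _ | s
    · rfl
    · exfalso
      rcases q with _ | _ | _ | _ | _ | q | q <;> rcases s with _ | w <;>
        simp [delta] at h
      rcases hq : R.t q with _ | a | _ <;> simp [hq, atEnd] at h
  halt := rfl
  ne := by simp

theorem reach_trans {W : Type} (M : Frag W) {k l : ℕ} {c c' c'' : M.Q × ℕ × (ℕ → Option (Option W))}
    (h : M.Reach k c c') (h' : M.Reach l c' c'') : M.Reach (k + l) c c'' := by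
  induction k generalizing c with
  | zero =>
    have : c = c' := h
    subst this
    simpa using h'
  | succ k ih =>
    obtain ⟨c₁, h1, h2⟩ := h
    rw [show k + 1 + l = (k + l) + 1 by omega]
    exact ⟨c₁, h1, ih h2⟩

theorem tape_at {W : Type} (u v : List W) (w : W) :
    tapeOf (u ++ w :: v) (u.length + 1) = some (some w) := by
  simp [tapeOf]

theorem tape_end {W : Type} (u : List W) : tapeOf u (u.length + 1) = some none := by
  simp [tapeOf]

theorem update_mid {W : Type} (u v : List W) (w w' : W) :
    Function.update (tapeOf (u ++ w :: v)) (u.length + 1) (some (some w')) =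
      tapeOf (u ++ w' :: v) := by
  funext i
  rcases i with _ | i
  · simp [Function.update, tapeOf]
  · by_cases h : i = u.length
    · subst h
      simp [Function.update, tapeOf]
    · have : i + 1 ≠ u.length + 1 := by omega
      rw [Function.update_of_ne this]
      simp only [tapeOf]
      rcases lt_or_gt_of_ne h with h1 | h1
      · rw [List.getElem?_append_left h1, List.getElem?_append_left h1]
      · rw [List.getElem?_append_right h1.le, List.getElem?_append_right h1.le]
        obtain ⟨j, hj⟩ : ∃ j, i - u.length = j + 1 := ⟨i - u.length - 1, by omega⟩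
        rw [hj]
        simp

theorem update_same {W : Type} (u : List W) :
    Function.update (tapeOf u) (u.length + 1) (some none) = tapeOf u := by
  rw [← tape_end u, Function.update_eq_self]

theorem update_push {W : Type} (u : List W) (a : W) :
    Function.update (tapeOf u) (u.length + 1) (some (some a)) = tapeOf (u ++ [a]) := by
  funext i
  rcases i with _ | i
  · simp [Function.update, tapeOf]
  · by_cases h : i = u.length
    · subst h
      simp [Function.update, tapeOf]
    · have : i + 1 ≠ u.length + 1 := by omega
      rw [Function.update_of_ne this]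
      simp only [tapeOf]
      rcases lt_or_gt_of_ne h with h1 | h1
      · rw [List.getElem?_append_left h1]
      · rw [List.getElem?_append_right h1.le, List.getElem?_eq_none h1.le]
        rw [List.getElem?_eq_none]
        simp
        omega

theorem update_pop {W : Type} (u : List W) (a : W) :
    Function.update (tapeOf (u ++ [a])) (u.length + 1) (some none) = tapeOf u := by
  rw [← update_push, Function.update_idem, update_same]

theorem update_zero {W : Type} (u : List W) :
    Function.update (tapeOf u) 0 none = tapeOf u := by
  have : tapeOf u 0 = none := rfl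
  rw [← this, Function.update_eq_self]

theorem next_eq {W : Type} (R : Round W) (s : St R.Q R.Q') (p : ℕ) (T : ℕ → Option (Option W))
    (s' : St R.Q R.Q') (z : Option (Option W)) (b : Bool)
    (h : delta R s (T p) = some (s', z, b)) :
    (frag R).next (s, p, T) =
      some (s', (if b then p + 1 else p - 1), Function.update T p z) := by
  show Option.map _ (delta R s (T p)) = _
  rw [h]
  rfl

theorem left_sweep {W : Type} (R : Round W) (y u : List W) (q : R.Q) :
    (frag R).Reach y.length (St.L q, u.length + 1, tapeOf (u ++ y))
      (St.L (y.foldl R.f q), (u ++ lrun R.f R.o q y).length + 1,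
        tapeOf (u ++ lrun R.f R.o q y)) := by
  induction y generalizing u q with
  | nil => simp [Frag.Reach, lrun]
  | cons w y ih =>
    have h := ih (u ++ [R.o q w]) (R.f q w)
    refine ⟨(St.L (R.f q w), (u ++ [R.o q w]).length + 1, tapeOf (u ++ [R.o q w] ++ y)), ?_, ?_⟩
    · rw [next_eq R (St.L q) _ _ (St.L (R.f q w)) (some (some (R.o q w))) true
        (by rw [tape_at]; rfl), update_mid]
      simp <;> rfl
    · simpa [lrun] using h

theorem rrun_snoc {A B Q : Type} (f : Q → A → Q) (o : Q → A → B) (q : Q) (u : List A) (w : A) :
    rrun f o q (u ++ [w]) = ((rrun f o (f q w) u).1, (rrun f o (f q w) u).2 ++ [o q w]) := by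
  induction u with
  | nil => simp [rrun]
  | cons a u ih => simp [rrun, ih]

theorem right_sweep {W : Type} (R : Round W) (u v : List W) (q : R.Q') :
    (frag R).Reach u.length (St.R q, u.length, tapeOf (u ++ v))
      (St.R (rrun R.f' R.o' q u).1, 0, tapeOf ((rrun R.f' R.o' q u).2 ++ v)) := by
  induction u using List.reverseRecOn generalizing v q with
  | nil => simp [Frag.Reach, rrun]
  | append_singleton u w ih =>
    have h := ih (R.o' q w :: v) (R.f' q w)
    rw [List.length_append, List.length_singleton, rrun_snoc]
    refine ⟨(St.R (R.f' q w), u.length, tapeOf (u ++ R.o' q w :: v)), ?_, ?_⟩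
    · have e : u ++ [w] ++ v = u ++ w :: v := by simp
      rw [e, next_eq R (St.R q) _ _ (St.R (R.f' q w)) (some (some (R.o' q w))) false
        (by rw [tape_at]; rfl), update_mid]
      simp <;> rfl
    · simpa using h

/-- a single step -/
theorem one {W : Type} (M : Frag W) {c c' : M.Q × ℕ × (ℕ → Option (Option W))}
    (h : M.next c = some c') : M.Reach 1 c c' := ⟨c', h, rfl⟩

/-- from the state at the marker to `stop` -/
theorem finish {W : Type} (R : Round W) (z : List W) (s : St R.Q R.Q')
    (hs : delta R s none = some (.S, none, true)) :
    (frag R).Reach 2 (s, 0, tapeOf z) (St.stop, 0, tapeOf z) := by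
  have h1 : (frag R).next (s, 0, tapeOf z) = some (St.S, 1, tapeOf z) := by
    rw [next_eq R s 0 (tapeOf z) _ _ _ hs, update_zero]
    simp <;> rfl
  have h2 : (frag R).next (St.S, 1, tapeOf z) = some (St.stop, 0, tapeOf z) := by
    rw [next_eq R St.S 1 (tapeOf z) St.stop (tapeOf z 1) false rfl, Function.update_eq_self]
    simp <;> rfl
  exact reach_trans _ (one _ h1) (one _ h2)

/-- the second half of a round -/
theorem half {W : Type} (R : Round W) (z : List W) :
    (frag R).Reach (z.length + 2) (St.R R.q0', z.length, tapeOf z)
      (St.stop, 0, tapeOf (rrun R.f' R.o' R.q0' z).2) := by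
  have h := right_sweep R z [] R.q0'
  simp only [List.append_nil] at h
  exact reach_trans _ h (finish R _ _ rfl)

theorem main : S_round := by
  intro W _ R
  refine ⟨frag R, 10, fun x => ?_⟩
  set y := lrun R.f R.o R.q0 x with hy
  have hlen : y.length = x.length := lrun_length _ _ _ _
  have h0 : (frag R).next (St.start, 0, tapeOf x) = some (St.L R.q0, 1, tapeOf x) := by
    rw [next_eq R St.start 0 (tapeOf x) (St.L R.q0) none true rfl, update_zero]
    simp <;> rfl
  have h1 := left_sweep R x [] R.q0
  simp only [List.nil_append, List.length_nil, zero_add] at h1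
  rw [← hy] at h1
  have h01 := reach_trans _ (one _ h0) h1
  have hrun : R.run x = (rrun R.f' R.o' R.q0' ((R.t (x.foldl R.f R.q0)).run y)).2 := rfl
  rw [hrun]
  rcases ht : R.t (x.foldl R.f R.q0) with _ | a | _
  · -- keep
    have hd : (frag R).next (St.L (x.foldl R.f R.q0), y.length + 1, tapeOf y) =
        some (St.R R.q0', y.length, tapeOf y) := by
      rw [next_eq R (St.L (x.foldl R.f R.q0)) (y.length + 1) (tapeOf y) (St.R R.q0') (some none)
        false (by rw [tape_end]; simp [delta, ht, atEnd]), update_same]
      simp <;> rfl
    refine ⟨_, ?_, reach_trans _ (reach_trans _ h01 (one _ hd)) (half R y)⟩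
    rw [hlen]
    omega
  · -- push
    have hd : (frag R).next (St.L (x.foldl R.f R.q0), y.length + 1, tapeOf y) =
        some (St.R0, y.length + 2, tapeOf (y ++ [a])) := by
      rw [next_eq R (St.L (x.foldl R.f R.q0)) (y.length + 1) (tapeOf y) St.R0 (some (some a))
        true (by rw [tape_end]; simp [delta, ht, atEnd]), update_push]
      simp <;> rfl
    have h3 : (frag R).next (St.R0, y.length + 2, tapeOf (y ++ [a])) =
        some (St.R R.q0', (y ++ [a]).length, tapeOf (y ++ [a])) := by
      have e : tapeOf (y ++ [a]) (y.length + 2) = some none := by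
        have := tape_end (y ++ [a])
        simpa using this
      have e' : Function.update (tapeOf (y ++ [a])) (y.length + 2) (some none) =
          tapeOf (y ++ [a]) := by
        rw [← e, Function.update_eq_self]
      rw [next_eq R St.R0 (y.length + 2) (tapeOf (y ++ [a])) (St.R R.q0') (some none) false
        (by rw [e]; rfl), e']
      simp <;> rfl
    refine ⟨_, ?_, reach_trans _ (reach_trans _ (reach_trans _ h01 (one _ hd)) (one _ h3))
      (half R (y ++ [a]))⟩
    simp [hlen]
    omega
  · -- pop
    have hd : (frag R).next (St.L (x.foldl R.f R.q0), y.length + 1, tapeOf y) =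
        some (St.P, y.length, tapeOf y) := by
      rw [next_eq R (St.L (x.foldl R.f R.q0)) (y.length + 1) (tapeOf y) St.P (some none)
        false (by rw [tape_end]; simp [delta, ht, atEnd]), update_same]
      simp <;> rfl
    rcases List.eq_nil_or_concat y with h4 | ⟨y', a, h4⟩
    · have hx : x.length = 0 := by rw [← hlen, h4]; rfl
      rw [h4] at hd h01 ⊢
      have h5 := finish R [] St.P rfl
      have h7 : (rrun R.f' R.o' R.q0' ((Act.pop : Act W).run [])).2 = [] := rfl
      rw [h7]
      refine ⟨_, ?_, reach_trans _ (reach_trans _ h01 (one _ hd)) h5⟩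
      omega
    · have e1 : y'.concat a = y' ++ [a] := List.concat_eq_append
      rw [e1] at h4
      rw [h4] at hd h01 hlen ⊢
      have h3 : (frag R).next (St.P, (y' ++ [a]).length, tapeOf (y' ++ [a])) =
          some (St.R R.q0', y'.length, tapeOf y') := by
        have e : tapeOf (y' ++ [a]) ((y' ++ [a]).length) = some (some a) := by
          have := tape_at y' [] a
          simpa using this
        have e' : Function.update (tapeOf (y' ++ [a])) ((y' ++ [a]).length) (some none) =
            tapeOf y' := by
          have := update_pop y' a
          simpa using this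
        rw [next_eq R St.P _ (tapeOf (y' ++ [a])) (St.R R.q0') (some none) false
          (by rw [e]; rfl), e']
        simp <;> rfl
      have h6 : (Act.pop : Act W).run (y' ++ [a]) = y' := by
        simp [Act.run]
      rw [h6]
      refine ⟨_, ?_, reach_trans _ (reach_trans _ (reach_trans _ h01 (one _ hd)) (one _ h3))
        (half R y')⟩
      simp at hlen
      omega

end Pool.Agent.Q53.LT.RoundJ

namespace Pool.Agent.Q27.LT

theorem s_round : S_round := Pool.Agent.Q53.LT.RoundJ.main

end Pool.Agent.Q27.LT
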